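import Pool.Agent.R65.SID.Graph

namespace Pool.Agent.R65.SID

open Finset SimpleGraph

/-- The polynomial behind the case `t = 2`. -/
def G2 (s j N D : ℤ) : ℤ :=
  s * (s - 1) * (N * N * (N - 2) + D * (3 * N - 2 - 2 * s)) - 2 * (j - 1) * N * (N - 1) * (N - 2)

/-- The polynomial behind the case `t = 1`. -/
def G1 (s j N D : ℤ) : ℤ :=
  s * (N * N * (s - 1) + D * (2 * N - 1 - s)) - 2 * (j - 1) * N * (N - 1)

lemma G2_mono {s j N D D' : ℤ} (hs : 1 ≤ s) (hN : 2 * s ≤ N) (hD : D' ≤ D)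
    (h : 0 < G2 s j N D') : 0 < G2 s j N D := by
  unfold G2 at *
  have h1 : 0 ≤ s * (s - 1) := mul_nonneg (by linarith) (by linarith)
  have h2 : 0 ≤ 3 * N - 2 - 2 * s := by linarith
  have h3 : D' * (3 * N - 2 - 2 * s) ≤ D * (3 * N - 2 - 2 * s) := mul_le_mul_of_nonneg_right hD h2
  have h4 : N * N * (N - 2) + D' * (3 * N - 2 - 2 * s) ≤ N * N * (N - 2) + D * (3 * N - 2 - 2 * s) := by
    linarith
  have h5 := mul_le_mul_of_nonneg_left h4 h1
  linarith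

/-- `j < s`, `N ≥ 2 s + j`. -/
lemma G2_A1 (a e x : ℕ) :
    0 < G2 ((a : ℤ) + 1 + e + 1) (a + 1) (2 * ((a : ℤ) + 1 + e + 1) + (a + 1) + x)
      (((a : ℤ) + 1 - (a + 1 + e + 1)) * (2 * ((a : ℤ) + 1 + e + 1) + (a + 1) + x)
        - (a + 1) * ((a + 1 + e + 1) - 2)) := by
  unfold G2
  ring_nf
  positivity

/-- `2 ≤ j ≤ s`, `N ≥ 2 s + j`. -/
lemma G2_A2 (a e x : ℕ) :
    0 < G2 ((a : ℤ) + 2 + e) (a + 2) (2 * ((a : ℤ) + 2 + e) + (a + 2) + x)
      (((a : ℤ) + 2 - (a + 2 + e)) * (2 * ((a : ℤ) + 2 + e) + (a + 2) + x)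
        - (a + 2) * ((a + 2 + e) - 2)) := by
  unfold G2
  ring_nf
  positivity

/-- `j = s + f`, `f ≥ 1`, `s ≥ 2 f + 2`, `N ≥ 2 s + j`. -/
lemma G2_A3 (a g x : ℕ) :
    0 < G2 (2 * ((a : ℤ) + 1) + 2 + g) (2 * ((a : ℤ) + 1) + 2 + g + (a + 1))
      (2 * (2 * ((a : ℤ) + 1) + 2 + g) + (2 * ((a : ℤ) + 1) + 2 + g + (a + 1)) + x)
      (((a : ℤ) + 1) *
        (2 * (2 * ((a : ℤ) + 1) + 2 + g) + (2 * ((a : ℤ) + 1) + 2 + g + (a + 1)) + x)
        - (2 * ((a : ℤ) + 1) + 2 + g + (a + 1)) * ((2 * ((a : ℤ) + 1) + 2 + g) - 2)) := by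
  unfold G2
  ring_nf
  positivity

/-- `j < s`, `N = 2 s + j - 1`. -/
lemma G2_B1 (a e : ℕ) :
    0 < G2 ((a : ℤ) + 1 + e + 1) (a + 1) (2 * ((a : ℤ) + 1 + e + 1) + (a + 1) - 1)
      (((a : ℤ) + 1 - (a + 1 + e + 1)) * (2 * ((a : ℤ) + 1 + e + 1) + (a + 1) - 1)
        - (a + 1) * ((a + 1 + e + 1) - 2) + ((a + 1 + e + 1) + (a + 1) - 1)) := by
  unfold G2
  ring_nf
  positivity

/-- `2 ≤ j ≤ s`, `N = 2 s + j - 1`. -/
lemma G2_B2 (a e : ℕ) :
    0 < G2 ((a : ℤ) + 2 + e) (a + 2) (2 * ((a : ℤ) + 2 + e) + (a + 2) - 1)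
      (((a : ℤ) + 2 - (a + 2 + e)) * (2 * ((a : ℤ) + 2 + e) + (a + 2) - 1)
        - (a + 2) * ((a + 2 + e) - 2) + ((a + 2 + e) + (a + 2) - 1)) := by
  unfold G2
  ring_nf
  positivity

/-- `j = s + f`, `f ≥ 1`, `s ≥ 2 f + 2`, `N = 2 s + j - 1`. -/
lemma G2_B3 (a g : ℕ) :
    0 < G2 (2 * ((a : ℤ) + 1) + 2 + g) (2 * ((a : ℤ) + 1) + 2 + g + (a + 1))
      (2 * (2 * ((a : ℤ) + 1) + 2 + g) + (2 * ((a : ℤ) + 1) + 2 + g + (a + 1)) - 1)
      (((a : ℤ) + 1) *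
        (2 * (2 * ((a : ℤ) + 1) + 2 + g) + (2 * ((a : ℤ) + 1) + 2 + g + (a + 1)) - 1)
        - (2 * ((a : ℤ) + 1) + 2 + g + (a + 1)) * ((2 * ((a : ℤ) + 1) + 2 + g) - 2)
        + ((2 * ((a : ℤ) + 1) + 2 + g) + (2 * ((a : ℤ) + 1) + 2 + g + (a + 1)) - 1)) := by
  unfold G2
  ring_nf
  positivity

/-- The domain of the parameters: `δ = 0` and `N ≥ 2 s + j`, or `δ = 1` and `N = 2 s + j - 1`. -/
def Dom (s j N D : ℤ) : Prop :=
  (2 * s + j ≤ N ∧ (j - s) * N - j * (s - 2) ≤ D) ∨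
    (N = 2 * s + j - 1 ∧ (j - s) * N - j * (s - 2) + (s + j - 1) ≤ D)

/-- Case `j ≤ s`, `s ≥ 2`. -/
lemma T2_le (s j N D : ℤ) (hs : 2 ≤ s) (hj : 1 ≤ j) (hjs : j ≤ s) (hd : Dom s j N D) :
    0 < G2 s j N D := by
  have hN : 2 * s ≤ N := by rcases hd with h | h <;> linarith [h.1]
  rcases lt_or_eq_of_le hjs with h | h
  · obtain ⟨a, ha⟩ := Int.eq_ofNat_of_zero_le (show 0 ≤ j - 1 by linarith)
    obtain ⟨e, he⟩ := Int.eq_ofNat_of_zero_le (show 0 ≤ s - j - 1 by linarith)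
    have hj' : j = (a : ℤ) + 1 := by linarith
    have hs' : s = (a : ℤ) + 1 + e + 1 := by linarith
    rcases hd with ⟨h1, h2⟩ | ⟨h1, h2⟩
    · obtain ⟨x, hx⟩ := Int.eq_ofNat_of_zero_le (show 0 ≤ N - (2 * s + j) by linarith)
      have hN' : N = 2 * ((a : ℤ) + 1 + e + 1) + (a + 1) + x := by rw [← hs', ← hj']; linarith
      subst hj' hs' hN'
      exact G2_mono (by linarith) (by linarith) h2 (G2_A1 a e x)
    · have hN' : N = 2 * ((a : ℤ) + 1 + e + 1) + (a + 1) - 1 := by rw [← hs', ← hj']; linarith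
      subst hj' hs' hN'
      exact G2_mono (by linarith) (by linarith) h2 (G2_B1 a e)
  · obtain ⟨a, ha⟩ := Int.eq_ofNat_of_zero_le (show 0 ≤ j - 2 by linarith)
    have hj' : j = (a : ℤ) + 2 := by linarith
    have hs' : s = (a : ℤ) + 2 + ((0 : ℕ) : ℤ) := by push_cast; linarith
    rcases hd with ⟨h1, h2⟩ | ⟨h1, h2⟩
    · obtain ⟨x, hx⟩ := Int.eq_ofNat_of_zero_le (show 0 ≤ N - (2 * s + j) by linarith)
      have hN' : N = 2 * ((a : ℤ) + 2 + ((0 : ℕ) : ℤ)) + (a + 2) + x := by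
        rw [← hs', ← hj']; linarith
      subst hj' hs' hN'
      exact G2_mono (by linarith) (by linarith) h2 (G2_A2 a 0 x)
    · have hN' : N = 2 * ((a : ℤ) + 2 + ((0 : ℕ) : ℤ)) + (a + 2) - 1 := by
        rw [← hs', ← hj']; linarith
      subst hj' hs' hN'
      exact G2_mono (by linarith) (by linarith) h2 (G2_B2 a 0)

/-- Case `j > s`, `D < 0`. -/
lemma T2_gt (s j N D : ℤ) (hs : 1 ≤ s) (hjs : s < j) (hd : Dom s j N D) (hD : D < 0) :
    2 ≤ s ∧ 0 < G2 s j N D := by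
  have hN : 2 * s ≤ N := by rcases hd with h | h <;> linarith [h.1]
  obtain ⟨a, ha⟩ := Int.eq_ofNat_of_zero_le (show 0 ≤ j - s - 1 by linarith)
  have hj' : j = s + ((a : ℤ) + 1) := by linarith
  have hf : (0 : ℤ) ≤ a := by positivity
  -- `f N < j (s - 2)` gives `s ≥ 2 f + 2`
  have hlt : ((a : ℤ) + 1) * (2 * s + j - 1) < j * (s - 2) := by
    have h0 : (j - s) = (a : ℤ) + 1 := by linarith
    rcases hd with ⟨h1, h2⟩ | ⟨h1, h2⟩
    · rw [h0] at h2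
      nlinarith
    · rw [h0, h1] at h2
      nlinarith
  have hsf : 2 * ((a : ℤ) + 1) + 2 ≤ s := by
    by_contra hcon
    push Not at hcon
    rw [hj'] at hlt
    nlinarith
  refine ⟨by linarith, ?_⟩
  obtain ⟨g, hg⟩ := Int.eq_ofNat_of_zero_le (show 0 ≤ s - (2 * ((a : ℤ) + 1) + 2) by linarith)
  have hs' : s = 2 * ((a : ℤ) + 1) + 2 + g := by linarith
  have hj'' : j = 2 * ((a : ℤ) + 1) + 2 + g + (a + 1) := by rw [hj', hs']
  rcases hd with ⟨h1, h2⟩ | ⟨h1, h2⟩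
  · obtain ⟨x, hx⟩ := Int.eq_ofNat_of_zero_le (show 0 ≤ N - (2 * s + j) by linarith)
    have hN' : N = 2 * (2 * ((a : ℤ) + 1) + 2 + g) + (2 * ((a : ℤ) + 1) + 2 + g + (a + 1)) + x := by
      linarith
    have h3 : (j - s) = (a : ℤ) + 1 := by linarith
    rw [h3] at h2
    clear h3 hj' hlt ha hg hx
    subst hs' hj'' hN'
    exact G2_mono (by linarith) (by linarith) h2 (G2_A3 a g x)
  · have hN' : N = 2 * (2 * ((a : ℤ) + 1) + 2 + g) + (2 * ((a : ℤ) + 1) + 2 + g + (a + 1)) - 1 := by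
      linarith
    have h3 : (j - s) = (a : ℤ) + 1 := by linarith
    rw [h3] at h2
    clear h3 hj' hlt ha hg
    subst hs' hj'' hN'
    exact G2_mono (by linarith) (by linarith) h2 (G2_B3 a g)

/-- Case `j > s`, `0 ≤ D ≤ N + 1`. -/
lemma T1_gt (s j N D : ℤ) (hs : 1 ≤ s) (hjs : s < j) (hd : Dom s j N D) (hD : 0 ≤ D)
    (hDN : D ≤ N + 1) : 0 < G1 s j N D := by
  have hN : 2 * s ≤ N := by rcases hd with h | h <;> linarith [h.1]
  have hNj : 2 * s + j - 1 ≤ N := by rcases hd with h | h <;> linarith [h.1]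
  have hD0 : (j - s) * N - j * (s - 2) ≤ D := by
    rcases hd with h | h
    · exact h.2
    · linarith [h.2]
  by_cases hbig : 2 * (j - 1) ≤ s * (s - 1)
  · unfold G1
    have h1 : 0 < N := by linarith
    have h2 : 0 ≤ D * (2 * N - 1 - s) := mul_nonneg hD (by linarith)
    have h3 : 0 < 2 * (j - 1) := by linarith
    have h4 : 0 < s * (s - 1) := by linarith
    have h5 : 2 * (j - 1) * (N * (N - 1)) ≤ s * (s - 1) * (N * (N - 1)) :=
      mul_le_mul_of_nonneg_right hbig (mul_nonneg h1.le (by linarith))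
    have h6 : 0 < s * (s - 1) * N := mul_pos h4 h1
    have h7 : 0 ≤ s * (D * (2 * N - 1 - s)) := mul_nonneg (by linarith) h2
    nlinarith
  · push Not at hbig
    -- then `j = s + 1` and `s ≤ 2`
    obtain ⟨y, hy⟩ := Int.eq_ofNat_of_zero_le (show 0 ≤ j - s - 1 by linarith)
    have hj' : j = s + y + 1 := by linarith
    have hy0 : y = 0 := by
      by_contra hne
      have hy1 : (1 : ℤ) ≤ y := by exact_mod_cast Nat.one_le_iff_ne_zero.2 hne
      subst hj'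
      have h1 : ((y : ℤ) + 1) * N - (s + y + 1) * (s - 2) ≤ N + 1 := by
        have : (s + (y : ℤ) + 1 - s) = y + 1 := by ring
        rw [this] at hD0
        linarith
      have h2 : (y : ℤ) * (2 * s + (s + y + 1) - 1) ≤ y * N :=
        mul_le_mul_of_nonneg_left hNj (by linarith)
      nlinarith
    subst hy0
    have hj2 : j = s + 1 := by rw [hj']; simp
    subst hj2
    have hs2 : s ≤ 2 := by nlinarith
    have hcase : s = 1 ∨ s = 2 := by omega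
    rcases hcase with rfl | rfl
    · exfalso
      linarith
    · unfold G1
      nlinarith

end Pool.Agent.R65.SID
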