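import Mathlib

namespace Pool.Agent.R65.SID

open Finset

/-- The number of `s`-subsets of an `N`-set which contain a fixed subset with `a` elements. -/
def cc (N s a : ℕ) : ℤ := if a ≤ s then ((N - a).choose (s - a) : ℤ) else 0

/-- The differences of `cc`. -/
def dd (N s a : ℕ) : ℤ := if a ≤ s then ((N - a - 1).choose (s - a) : ℤ) else 0

lemma cc_sub (N s a : ℕ) (hs : s < N) : cc N s a - cc N s (a + 1) = dd N s a := by
  unfold cc dd
  rcases lt_trichotomy a s with h | h | h
  · rw [if_pos h.le, if_pos (show a + 1 ≤ s from h), if_pos h.le]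
    obtain ⟨d, rfl⟩ : ∃ d, s = a + 1 + d := ⟨s - (a + 1), by omega⟩
    obtain ⟨e, rfl⟩ : ∃ e, N = a + 1 + d + 1 + e := ⟨N - (a + 1 + d + 1), by omega⟩
    have h1 : a + 1 + d + 1 + e - a = (d + 1 + e) + 1 := by omega
    have h2 : a + 1 + d - a = d + 1 := by omega
    have h3 : a + 1 + d + 1 + e - (a + 1) = d + 1 + e := by omega
    have h4 : a + 1 + d - (a + 1) = d := by omega
    have h5 : d + 1 + e + 1 - 1 = d + 1 + e := by omega
    rw [h1, h2, h3, h4, h5, Nat.choose_succ_succ]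
    push_cast
    ring
  · subst h
    simp
  · rw [if_neg (by omega), if_neg (by omega), if_neg (by omega)]
    simp

lemma dd_anti (N s a : ℕ) (hs : s < N) : dd N s (a + 1) ≤ dd N s a := by
  unfold dd
  by_cases h : a + 1 ≤ s
  · rw [if_pos h, if_pos (by omega)]
    obtain ⟨d, rfl⟩ : ∃ d, s = a + 1 + d := ⟨s - (a + 1), by omega⟩
    obtain ⟨e, rfl⟩ : ∃ e, N = a + 1 + d + 1 + e := ⟨N - (a + 1 + d + 1), by omega⟩
    have h1 : a + 1 + d + 1 + e - (a + 1) - 1 = d + e := by omega
    have h2 : a + 1 + d - (a + 1) = d := by omega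
    have h3 : a + 1 + d + 1 + e - a - 1 = d + e + 1 := by omega
    have h4 : a + 1 + d - a = d + 1 := by omega
    rw [h1, h2, h3, h4, Nat.choose_succ_succ]
    push_cast
    have : (0 : ℤ) ≤ ((d + e).choose (d + 1) : ℤ) := by positivity
    simp only [Nat.succ_eq_add_one]
    linarith
  · rw [if_neg h]
    split_ifs <;> positivity

lemma dd_anti' (N s : ℕ) (hs : s < N) {a b : ℕ} (h : a ≤ b) : dd N s b ≤ dd N s a := by
  induction b, h using Nat.le_induction with
  | base => exact le_rfl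
  | succ b _ ih => exact (dd_anti N s b hs).trans ih

/-- convexity: the tangent line at `t`. -/
lemma cc_tangent (N s : ℕ) (hs : s < N) (a t : ℕ) :
    cc N s t - ((a : ℤ) - t) * dd N s t ≤ cc N s a := by
  rcases le_total t a with h | h
  · induction a, h using Nat.le_induction with
    | base => simp
    | succ b hb ih =>
      have h1 := cc_sub N s b hs
      have h2 := dd_anti' N s hs hb
      push_cast
      linarith
  · obtain ⟨d, rfl⟩ : ∃ d, t = a + d := ⟨t - a, by omega⟩
    clear h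
    suffices H : ∀ d, cc N s (a + d) + (d : ℤ) * dd N s (a + d) ≤ cc N s a by
      have := H d
      push_cast
      linarith
    intro d
    induction d with
    | zero => simp
    | succ e ih =>
      have h1 := cc_sub N s (a + e) hs
      have h2 := dd_anti N s (a + e) hs
      have h3 : (0 : ℤ) ≤ e := by positivity
      have h4 : (e : ℤ) * dd N s (a + e + 1) ≤ (e : ℤ) * dd N s (a + e) :=
        mul_le_mul_of_nonneg_left h2 h3
      rw [show a + (e + 1) = a + e + 1 by ring]
      push_cast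
      linarith

lemma dd_mul (N s t : ℕ) (hs : s < N) (hts : t ≤ s) :
    ((N : ℤ) - t) * dd N s t = ((N : ℤ) - s) * cc N s t := by
  unfold dd cc
  rw [if_pos hts, if_pos hts]
  have h := Nat.choose_mul_succ_eq (N - t - 1) (s - t)
  have h1 : N - t - 1 + 1 = N - t := by omega
  rw [h1] at h
  have h2 : N - t - (s - t) = N - s := by omega
  rw [h2] at h
  have h3 : ((N : ℤ) - t) = ((N - t : ℕ) : ℤ) := by
    rw [Nat.cast_sub (by omega)]
  have h4 : ((N : ℤ) - s) = ((N - s : ℕ) : ℤ) := by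
    rw [Nat.cast_sub (by omega)]
  rw [h3, h4]
  have h5 : ((N - t - 1).choose (s - t) : ℤ) * ((N - t : ℕ) : ℤ)
      = ((N - t).choose (s - t) : ℤ) * ((N - s : ℕ) : ℤ) := by exact_mod_cast h
  linarith

lemma cc_eq (N s t : ℕ) (hs : s < N) (hts : t ≤ s) :
    (N.choose t : ℤ) * cc N s t = (N.choose s : ℤ) * (s.choose t : ℤ) := by
  unfold cc
  rw [if_pos hts]
  have := Nat.choose_mul (n := N) hts
  exact_mod_cast this.symm

/-- the pointwise inequality. -/
lemma cc_lower (N s t a : ℕ) (hs : s < N) (hts : t ≤ s) :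
    (N.choose s : ℤ) * (s.choose t : ℤ) * (((N : ℤ) - t) - ((a : ℤ) - t) * ((N : ℤ) - s))
      ≤ (N.choose t : ℤ) * ((N : ℤ) - t) * cc N s a := by
  have h1 := cc_tangent N s hs a t
  have h2 := dd_mul N s t hs hts
  have h3 := cc_eq N s t hs hts
  have h4 : (0 : ℤ) ≤ (N.choose t : ℤ) * ((N : ℤ) - t) := by
    have : (t : ℤ) ≤ N := by exact_mod_cast (by omega : t ≤ N)
    have h5 : (0 : ℤ) ≤ (N : ℤ) - t := by linarith
    positivity
  have h5 := mul_le_mul_of_nonneg_left h1 h4
  refine le_trans (le_of_eq ?_) h5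
  calc (N.choose s : ℤ) * (s.choose t : ℤ) * (((N : ℤ) - t) - ((a : ℤ) - t) * ((N : ℤ) - s))
      = ((N.choose t : ℤ) * cc N s t) * (((N : ℤ) - t) - ((a : ℤ) - t) * ((N : ℤ) - s)) := by
        rw [h3]
    _ = (N.choose t : ℤ) * (((N : ℤ) - t) * cc N s t - ((a : ℤ) - t) * (((N : ℤ) - s) * cc N s t)) := by
        ring
    _ = (N.choose t : ℤ) * (((N : ℤ) - t) * cc N s t - ((a : ℤ) - t) * (((N : ℤ) - t) * dd N s t)) := by
        rw [h2]
    _ = _ := by ring

variable {V : Type*} [DecidableEq V]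

lemma card_contain (I A : Finset V) (hA : A ⊆ I) (s : ℕ) :
    ((#{S ∈ powersetCard s I | A ⊆ S} : ℕ) : ℤ) = cc (#I) s (#A) := by
  unfold cc
  split_ifs with h
  · norm_cast
    rw [← card_sdiff_of_subset hA, ← card_powersetCard]
    refine card_nbij' (fun S => S \ A) (fun T => T ∪ A) ?_ ?_ ?_ ?_
    · intro S hS
      simp only [mem_coe, mem_filter, mem_powersetCard] at hS
      simp only [mem_coe, mem_powersetCard]
      exact ⟨sdiff_subset_sdiff hS.1.1 le_rfl, by rw [card_sdiff_of_subset hS.2, hS.1.2]⟩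
    · intro T hT
      simp only [mem_coe, mem_powersetCard] at hT
      simp only [mem_coe, mem_filter, mem_powersetCard]
      have hd : Disjoint T A := by
        rw [disjoint_left]
        intro x hx hxA
        exact (mem_sdiff.1 (hT.1 hx)).2 hxA
      refine ⟨⟨union_subset (hT.1.trans sdiff_subset) hA, ?_⟩, subset_union_right⟩
      rw [card_union_of_disjoint hd, hT.2]
      omega
    · intro S hS
      simp only [mem_coe, mem_filter, mem_powersetCard] at hS
      exact sdiff_union_of_subset hS.2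
    · intro T hT
      simp only [mem_coe, mem_powersetCard] at hT
      have hd : Disjoint T A := by
        rw [disjoint_left]
        intro x hx hxA
        exact (mem_sdiff.1 (hT.1 hx)).2 hxA
      simp only
      rw [union_sdiff_right]
      exact sdiff_eq_self_of_disjoint hd
  · norm_cast
    rw [card_eq_zero, filter_eq_empty_iff]
    intro S hS hAS
    have := card_le_card hAS
    rw [(mem_powersetCard.1 hS).2] at this
    exact h this

/-- Averaging over the `s`-subsets of `I`. -/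
lemma exists_S (I U : Finset V) (A : V → Finset V) (hA : ∀ u ∈ U, A u ⊆ I) (s t : ℕ)
    (hs : s < #I) (hts : t ≤ s) :
    ∃ S ⊆ I, #S = s ∧
      (s.choose t : ℤ) * ((#U : ℤ) * ((#I : ℤ) - t) + t * (#U : ℤ) * ((#I : ℤ) - s)
        - ((#I : ℤ) - s) * ∑ u ∈ U, ((#(A u) : ℕ) : ℤ))
      ≤ ((#I).choose t : ℤ) * ((#I : ℤ) - t) * ((#{u ∈ U | A u ⊆ S} : ℕ) : ℤ) := by
  by_contra hcon
  push Not at hcon
  set X : ℤ := (s.choose t : ℤ) * ((#U : ℤ) * ((#I : ℤ) - t) + t * (#U : ℤ) * ((#I : ℤ) - s)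
        - ((#I : ℤ) - s) * ∑ u ∈ U, ((#(A u) : ℕ) : ℤ)) with hX
  have hne : (powersetCard s I).Nonempty := powersetCard_nonempty.2 hs.le
  have h1 : ∑ S ∈ powersetCard s I,
      ((#I).choose t : ℤ) * ((#I : ℤ) - t) * ((#{u ∈ U | A u ⊆ S} : ℕ) : ℤ)
      < ∑ _S ∈ powersetCard s I, X := by
    refine sum_lt_sum_of_nonempty hne ?_
    intro S hS
    rw [mem_powersetCard] at hS
    exact hcon S hS.1 hS.2
  rw [sum_const, card_powersetCard, ← mul_sum] at h1
  have h2 : ∑ S ∈ powersetCard s I, ((#{u ∈ U | A u ⊆ S} : ℕ) : ℤ)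
      = ∑ u ∈ U, cc (#I) s (#(A u)) := by
    calc ∑ S ∈ powersetCard s I, ((#{u ∈ U | A u ⊆ S} : ℕ) : ℤ)
        = ∑ S ∈ powersetCard s I, ∑ u ∈ U, (if A u ⊆ S then (1 : ℤ) else 0) := by
          refine sum_congr rfl fun S _ => ?_
          rw [card_filter]
          push_cast
          rfl
      _ = ∑ u ∈ U, ∑ S ∈ powersetCard s I, (if A u ⊆ S then (1 : ℤ) else 0) := sum_comm
      _ = ∑ u ∈ U, cc (#I) s (#(A u)) := by
          refine sum_congr rfl fun u hu => ?_
          rw [← card_contain I (A u) (hA u hu) s, card_filter]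
          push_cast
          rfl
  rw [h2, mul_sum] at h1
  have h3 : ∑ u ∈ U, ((#I).choose s : ℤ) * (s.choose t : ℤ) *
      (((#I : ℤ) - t) - (((#(A u) : ℕ) : ℤ) - t) * ((#I : ℤ) - s))
      ≤ ∑ u ∈ U, ((#I).choose t : ℤ) * ((#I : ℤ) - t) * cc (#I) s (#(A u)) :=
    sum_le_sum fun u _ => cc_lower _ _ _ _ hs hts
  have h4 : ∑ u ∈ U, ((#I).choose s : ℤ) * (s.choose t : ℤ) *
      (((#I : ℤ) - t) - (((#(A u) : ℕ) : ℤ) - t) * ((#I : ℤ) - s))
      = ((#I).choose s : ℤ) * X := by
    rw [hX, ← mul_sum, mul_assoc]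
    congr 2
    have : ∀ u ∈ U, (((#I : ℤ) - t) - (((#(A u) : ℕ) : ℤ) - t) * ((#I : ℤ) - s))
        = (((#I : ℤ) - t) + t * ((#I : ℤ) - s)) - ((#I : ℤ) - s) * ((#(A u) : ℕ) : ℤ) := by
      intro u _
      ring
    rw [sum_congr rfl this, sum_sub_distrib, ← mul_sum, sum_const]
    simp only [nsmul_eq_mul]
    ring
  rw [h4] at h3
  simp only [nsmul_eq_mul] at h1
  linarith

end Pool.Agent.R65.SID
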