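import Pool.Agent.R65.SID.Arith

namespace Pool.Agent.R65.SID

open Finset SimpleGraph

lemma two_choose (n : ℕ) : (2 : ℤ) * (n.choose 2 : ℤ) = (n : ℤ) * ((n : ℤ) - 1) := by
  induction n with
  | zero => simp
  | succ n ih =>
    rw [Nat.choose_succ_succ' n 1, Nat.choose_one_right]
    push_cast
    linarith

/-- The number of edges of the Turán graph. -/
lemma turan_edges (k w : ℕ) (hw : 1 ≤ w) :
    (2 : ℤ) * ((#(turanGraph k w).edgeFinset : ℕ) : ℤ)
      = (k : ℤ) * ((k : ℤ) - ((k + w - 1) / w : ℕ))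
        + ((((k + w - 1) / w : ℕ) : ℤ) - 1) * ((((k + w - 1) / w : ℕ) : ℤ) * w - k) := by
  rw [card_edgeFinset_turanGraph]
  obtain ⟨q, r, hr, rfl⟩ : ∃ q r, r < w ∧ k = w * q + r :=
    ⟨k / w, k % w, Nat.mod_lt _ hw, (Nat.div_add_mod k w).symm⟩
  have hmod : (w * q + r) % w = r := by
    rw [Nat.mul_add_mod, Nat.mod_eq_of_lt hr]
  rw [hmod]
  obtain ⟨v, rfl⟩ : ∃ v, w = v + 1 := ⟨w - 1, by omega⟩
  have hdiv : (((v + 1) * q + r) ^ 2 - r ^ 2) * (v + 1 - 1) / (2 * (v + 1))
      = r * q * v + (v + 1).choose 2 * q ^ 2 := by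
    have h1 : (v + 1).choose 2 * 2 = (v + 1) * v := by
      have := two_choose (v + 1)
      have h2 : (2 : ℤ) * ((v + 1).choose 2 : ℤ) = ((v : ℤ) + 1) * v := by
        rw [this]; push_cast; ring
      have h3 : (((v + 1).choose 2 * 2 : ℕ) : ℤ) = (((v + 1) * v : ℕ) : ℤ) := by
        push_cast
        linarith
      exact_mod_cast h3
    have h2 : (((v + 1) * q + r) ^ 2 - r ^ 2) * (v + 1 - 1)
        = (2 * (v + 1)) * (r * q * v + (v + 1).choose 2 * q ^ 2) := by
      have h3 : ((v + 1) * q + r) ^ 2 - r ^ 2 = (v + 1) * q * ((v + 1) * q + 2 * r) := by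
        rw [Nat.sub_eq_iff_eq_add (Nat.pow_le_pow_left (by omega) 2)]
        ring
      rw [h3, Nat.add_sub_cancel]
      calc (v + 1) * q * ((v + 1) * q + 2 * r) * v
          = 2 * (v + 1) * (r * q * v) + (v + 1) * ((v + 1) * v) * q ^ 2 := by ring
        _ = 2 * (v + 1) * (r * q * v) + (v + 1) * ((v + 1).choose 2 * 2) * q ^ 2 := by rw [h1]
        _ = _ := by ring
    rw [h2, Nat.mul_div_cancel_left _ (by positivity)]
  rw [hdiv]
  have hc1 := two_choose (v + 1)
  have hc2 := two_choose r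
  rcases Nat.eq_zero_or_pos r with h0 | hpos
  · subst h0
    have hp : ((v + 1) * q + 0 + (v + 1) - 1) / (v + 1) = q := by
      have : (v + 1) * q + 0 + (v + 1) - 1 = v + (v + 1) * q := by omega
      rw [this, Nat.add_mul_div_left _ _ (by omega), Nat.div_eq_of_lt (by omega)]
      omega
    rw [hp]
    push_cast at hc1 ⊢
    simp only [Nat.choose_zero_succ, Nat.cast_zero]
    linear_combination (q : ℤ) ^ 2 * hc1
  · have hp : ((v + 1) * q + r + (v + 1) - 1) / (v + 1) = q + 1 := by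
      have : (v + 1) * q + r + (v + 1) - 1 = (r - 1) + (v + 1) * (q + 1) := by
        have : (v + 1) * (q + 1) = (v + 1) * q + (v + 1) := by ring
        omega
      rw [this, Nat.add_mul_div_left _ _ (by omega), Nat.div_eq_of_lt (by omega)]
      omega
    rw [hp]
    push_cast at hc1 ⊢
    linear_combination (q : ℤ) ^ 2 * hc1 + hc2

/-- The arithmetic condition holds for every Turán graph. -/
theorem cond_all (k w : ℕ) (hw : 2 ≤ w) (hwk : w ≤ k) (j : ℕ) (hj : 1 ≤ j) (hjk : j ≤ k) :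
    Cond k w (k + #(turanGraph k w).edgeFinset) j := by
  unfold Cond
  by_cases hS : (k - j + 1) * (k - j + 2) ≤ 2 * (k + #(turanGraph k w).edgeFinset)
  · exact Or.inl hS
  right
  push Not at hS
  have hm := turan_edges k w (by omega)
  set m := #(turanGraph k w).edgeFinset with hmdef
  set p := (k + w - 1) / w with hp
  -- bounds for `p`
  have hp1 : p * w ≤ k + w - 1 := Nat.div_mul_le_self _ _
  have hp2 : k ≤ p * w := by
    have := Nat.lt_div_mul_add (a := k + w - 1) (b := w) (by omega)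
    rw [← hp] at this
    omega
  have hpz1 : ((p : ℤ) - 1) * w + 1 ≤ k := by
    have : p * w + 1 ≤ k + w := by omega
    have : (p : ℤ) * w + 1 ≤ k + w := by exact_mod_cast this
    linarith
  have hpz2 : (k : ℤ) ≤ p * w := by exact_mod_cast hp2
  have hwz : (2 : ℤ) ≤ w := by exact_mod_cast hw
  have hwkz : (w : ℤ) ≤ k := by exact_mod_cast hwk
  have hjz : (1 : ℤ) ≤ j := by exact_mod_cast hj
  have hjkz : (j : ℤ) ≤ k := by exact_mod_cast hjk
  have hp0 : (1 : ℤ) ≤ p := by
    by_contra h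
    push Not at h
    have : (p : ℤ) * w ≤ 0 := mul_nonpos_of_nonpos_of_nonneg (by linarith) (by linarith)
    linarith
  have hSz : ((k : ℤ) - j + 1) * (k - j + 2) > 2 * (k + m) := by
    have h1 : ((k - j : ℕ) : ℤ) = (k : ℤ) - j := by rw [Nat.cast_sub hjk]
    have h2 : ((2 * (k + m) : ℕ) : ℤ) < (((k - j + 1) * (k - j + 2) : ℕ) : ℤ) := by
      exact_mod_cast hS
    push_cast at h2
    rw [h1] at h2
    linarith
  have hz0 : (0 : ℤ) ≤ (p : ℤ) * w - k := by linarith
  have hpz : (0 : ℤ) ≤ ((p : ℤ) - 1) * ((p : ℤ) * w - k) := mul_nonneg (by linarith) hz0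
  -- `j < p`
  have hjp : j < p := by
    by_contra hcon
    push Not at hcon
    have hcz : (p : ℤ) ≤ j := by exact_mod_cast hcon
    have e1 : ((j : ℤ) - 1) * j ≤ (2 * j - 1 - p) * k :=
      mul_le_mul (by linarith) hjkz (by linarith) (by linarith)
    have e2 : ((k : ℤ) - j + 1) * (k - j + 2) - 2 * k - (k : ℤ) * (k - p)
        = ((j : ℤ) - 1) * j - (2 * j - 1 - p) * k - 2 * (j - 1) := by ring
    linarith
  have hjpz : (j : ℤ) + 1 ≤ p := by exact_mod_cast hjp
  refine ⟨hjp, ?_⟩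
  have hn : k + m - (k - j) = m + j := by omega
  rw [hn]
  have hNc : ((k - j : ℕ) : ℤ) = (k : ℤ) - j := by rw [Nat.cast_sub hjk]
  have hsc : ((p - j : ℕ) : ℤ) = (p : ℤ) - j := by rw [Nat.cast_sub hjp.le]
  set N : ℤ := (k : ℤ) - j with hN
  set s : ℤ := (p : ℤ) - j with hs
  set D : ℤ := 2 * ((m : ℤ) + j) - N * N with hD
  have hs1 : 1 ≤ s := by linarith
  have hkp : 2 * (p : ℤ) - 1 ≤ k := by
    have : ((p : ℤ) - 1) * 2 ≤ (p - 1) * w := mul_le_mul_of_nonneg_left hwz (by linarith)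
    linarith
  have hDN : D ≤ N + 1 := by
    have : 2 * ((k : ℤ) + m) < (N + 1) * (N + 2) := by
      have e1 : (N + 1) * (N + 2) = ((k : ℤ) - j + 1) * (k - j + 2) := by rw [hN]
      rw [e1]
      linarith
    have hk' : (k : ℤ) = N + j := by rw [hN]; ring
    rw [hk'] at this
    have e2 : (N + 1) * (N + 2) = N * N + 3 * N + 2 := by ring
    rw [hD]
    linarith
  have hDeq : D = ((j : ℤ) - s) * N - j * (s - 2) + ((p : ℤ) - 1) * ((p : ℤ) * w - k) := by
    rw [hD, hN, hs]
    linear_combination hm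
  have hdom : Dom s j N D := by
    rcases le_or_gt (2 * (p : ℤ)) k with h | h
    · left
      exact ⟨by rw [hs, hN]; linarith, by rw [hDeq]; linarith⟩
    · right
      have hk1 : (k : ℤ) = 2 * p - 1 := by linarith
      refine ⟨by rw [hs, hN, hk1]; ring, ?_⟩
      rw [hDeq]
      have hz1 : 1 ≤ (p : ℤ) * w - k := by
        have : (p : ℤ) * 2 ≤ p * w := mul_le_mul_of_nonneg_left hwz (by linarith)
        linarith
      have h2 : ((p : ℤ) - 1) * 1 ≤ ((p : ℤ) - 1) * ((p : ℤ) * w - k) :=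
        mul_le_mul_of_nonneg_left hz1 (by linarith)
      have h3 : s + j - 1 = (p : ℤ) - 1 := by rw [hs]; ring
      rw [h3]
      linarith
  have hMD : 2 * ((m : ℤ) + j) = N * N + D := by rw [hD]; ring
  have hN2 : 2 ≤ N := by
    rcases hdom with h | h <;> linarith [h.1]
  -- the two ways to conclude
  have fin1 : 0 < G1 s j N D → ∃ t ≤ p - j,
      ((j : ℤ) - 1) * (((k - j).choose t : ℤ) * (((k - j : ℕ) : ℤ) - t)) <
        ((p - j).choose t : ℤ) *
          (((m + j : ℕ) : ℤ) * (((k - j : ℕ) : ℤ) - t)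
            + t * ((m + j : ℕ) : ℤ) * (((k - j : ℕ) : ℤ) - ((p - j : ℕ) : ℤ))
            - (((k - j : ℕ) : ℤ) - ((p - j : ℕ) : ℤ))
              * (((k - j : ℕ) : ℤ) * ((k - j : ℕ) : ℤ))) := by
    intro hG
    refine ⟨1, by omega, ?_⟩
    rw [Nat.choose_one_right, Nat.choose_one_right, hNc, hsc]
    push_cast
    unfold G1 at hG
    have e : 2 * (s * (((m : ℤ) + j) * (N - 1) + 1 * ((m : ℤ) + j) * (N - s) - (N - s) * (N * N))
        - ((j : ℤ) - 1) * (N * (N - 1)))
        = s * (N * N * (s - 1) + D * (2 * N - 1 - s)) - 2 * (j - 1) * N * (N - 1) := by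
      linear_combination (s * (N - 1) + s * (N - s)) * hMD
    linarith
  have fin2 : 2 ≤ s → 0 < G2 s j N D → ∃ t ≤ p - j,
      ((j : ℤ) - 1) * (((k - j).choose t : ℤ) * (((k - j : ℕ) : ℤ) - t)) <
        ((p - j).choose t : ℤ) *
          (((m + j : ℕ) : ℤ) * (((k - j : ℕ) : ℤ) - t)
            + t * ((m + j : ℕ) : ℤ) * (((k - j : ℕ) : ℤ) - ((p - j : ℕ) : ℤ))
            - (((k - j : ℕ) : ℤ) - ((p - j : ℕ) : ℤ))
              * (((k - j : ℕ) : ℤ) * ((k - j : ℕ) : ℤ))) := by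
    intro h2s hG
    refine ⟨2, by omega, ?_⟩
    have c1 := two_choose (k - j)
    have c2 := two_choose (p - j)
    rw [hNc] at c1
    rw [hsc] at c2
    rw [hNc, hsc]
    push_cast
    unfold G2 at hG
    have e : 4 * (((p - j).choose 2 : ℤ) *
          (((m : ℤ) + j) * (N - 2) + 2 * ((m : ℤ) + j) * (N - s) - (N - s) * (N * N))
          - ((j : ℤ) - 1) * (((k - j).choose 2 : ℤ) * (N - 2)))
        = s * (s - 1) * (N * N * (N - 2) + D * (3 * N - 2 - 2 * s))
          - 2 * (j - 1) * N * (N - 1) * (N - 2) := by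
      linear_combination (2 * (((m : ℤ) + j) * (N - 2) + 2 * ((m : ℤ) + j) * (N - s)
        - (N - s) * (N * N))) * c2 - (2 * ((j : ℤ) - 1) * (N - 2)) * c1
        + (s * (s - 1) * ((N - 2) + 2 * (N - s))) * hMD
    linarith
  rcases le_or_gt (j : ℤ) s with hjs | hjs
  · rcases lt_or_eq_of_le hs1 with h | h
    · exact fin2 (by linarith) (T2_le s j N D (by linarith) hjz hjs hdom)
    · -- `s = 1`, `j = 1`
      apply fin1
      have hj1 : (j : ℤ) = 1 := by linarith
      have hs1' : s = 1 := h.symm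
      have hD1 : 1 ≤ D := by
        rcases hdom with ⟨_, h2⟩ | ⟨_, h2⟩ <;> rw [hj1, hs1'] at h2 <;> linarith
      rw [hj1, hs1']
      unfold G1
      have e3 : (1 : ℤ) * (N * N * (1 - 1) + D * (2 * N - 1 - 1)) - 2 * (1 - 1) * N * (N - 1)
          = D * (2 * N - 2) := by ring
      rw [e3]
      exact mul_pos (by linarith) (by linarith)
  · rcases lt_or_ge D 0 with hDn | hDn
    · obtain ⟨h2, hG⟩ := T2_gt s j N D hs1 hjs hdom hDn
      exact fin2 h2 hG
    · exact fin1 (T1_gt s j N D hs1 hjs hdom hDn hDN)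

/-- Every triangle-free graph on `k + e(T(k, w))` vertices contains the Turán graph `T(k, w)` in
its complement. -/
theorem turan_compl {V : Type*} [Fintype V] (H : SimpleGraph V) (hH : H.CliqueFree 3) (k w : ℕ)
    (hw : 2 ≤ w) (hwk : w ≤ k) (hV : Fintype.card V = k + #(turanGraph k w).edgeFinset) :
    (turanGraph k w).IsContained Hᶜ := by
  classical
  refine main_comb H hH k w hw hwk ?_
  intro j h1 h2
  rw [hV]
  exact cond_all k w hw hwk j h1 h2

end Pool.Agent.R65.SID
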