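import Pool.Agent.R65.SID.Count

namespace Pool.Agent.R65.SID

open Finset SimpleGraph

variable {V : Type*} [Fintype V] [DecidableEq V] (H : SimpleGraph V) [DecidableRel H.Adj]

/-- The bound `R(3, s) ≤ s (s + 1) / 2`, inside a finite set `A`. -/
lemma exists_indep (hH : H.CliqueFree 3) (s : ℕ) :
    ∀ A : Finset V, s * (s + 1) ≤ 2 * #A → ∃ I ⊆ A, #I = s ∧ H.IsIndepSet (I : Set V) := by
  induction s with
  | zero =>
    intro A _
    exact ⟨∅, empty_subset _, rfl, by simp⟩
  | succ s ih =>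
    intro A hA
    by_cases hv : ∃ v ∈ A, s + 1 ≤ #{x ∈ A | H.Adj v x}
    · obtain ⟨v, hvA, hv⟩ := hv
      obtain ⟨I, hI, hIc⟩ := exists_subset_card_eq hv
      refine ⟨I, hI.trans (filter_subset _ _), hIc, ?_⟩
      refine Set.Pairwise.mono ?_ (isIndepSet_neighborSet_of_triangleFree H hH v)
      intro x hx
      exact (mem_filter.1 (hI hx)).2
    · push Not at hv
      have hne : A.Nonempty := by
        rw [nonempty_iff_ne_empty]
        rintro rfl
        simp at hA
      obtain ⟨v, hvA⟩ := hne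
      have hd := hv v hvA
      set A' := {x ∈ A.erase v | ¬ H.Adj v x} with hA'
      have hcard : #A ≤ #A' + 1 + s := by
        have h1 : #(A.erase v) = #A - 1 := card_erase_of_mem hvA
        have h2 : #{x ∈ A.erase v | H.Adj v x} + #A' = #(A.erase v) :=
          card_filter_add_card_filter_not (s := A.erase v) (fun x => H.Adj v x)
        have h3 : #{x ∈ A.erase v | H.Adj v x} ≤ #{x ∈ A | H.Adj v x} :=
          card_le_card (filter_subset_filter _ (erase_subset _ _))
        have h4 : 1 ≤ #A := card_pos.2 ⟨v, hvA⟩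
        omega
      obtain ⟨I, hI, hIc, hIi⟩ := ih A' (by nlinarith)
      have hvI : v ∉ I := by
        intro h
        have := hI h
        rw [hA', mem_filter, mem_erase] at this
        exact this.1.1 rfl
      refine ⟨insert v I, ?_, ?_, ?_⟩
      · intro x hx
        rcases mem_insert.1 hx with rfl | hx
        · exact hvA
        · exact mem_of_mem_erase (mem_filter.1 (hI hx)).1
      · rw [card_insert_of_notMem hvI, hIc]
      · have hnon : ∀ x ∈ I, ¬ H.Adj v x := fun x hx => (mem_filter.1 (hI hx)).2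
        intro x hx y hy hxy hadj
        rcases mem_insert.1 (mem_coe.1 hx) with hx | hx <;>
          rcases mem_insert.1 (mem_coe.1 hy) with hy | hy
        · exact hxy (hx.trans hy.symm)
        · rw [hx] at hadj
          exact hnon y hy hadj
        · rw [hy] at hadj
          exact hnon x hx hadj.symm
        · exact hIi hx hy hxy hadj

lemma card_mod_zero (k w : ℕ) (hw : 1 ≤ w) :
    #{a : Fin k | (a : ℕ) % w = 0} = (k + w - 1) / w := by
  rw [← card_range ((k + w - 1) / w)]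
  have key : ∀ i, i < (k + w - 1) / w ↔ i * w < k := by
    intro i
    rw [← Nat.succ_le_iff, Nat.le_div_iff_mul_le (by omega), Nat.succ_mul]
    omega
  symm
  refine card_bij (fun i hi => ⟨i * w, (key i).1 (mem_range.1 hi)⟩) ?_ ?_ ?_
  · intro i hi
    simp
  · intro i hi j hj hij
    have : i * w = j * w := by simpa using hij
    exact Nat.eq_of_mul_eq_mul_right (by omega) this
  · intro a ha
    rw [mem_filter] at ha
    have h1 : (a : ℕ) / w * w = a := Nat.div_mul_cancel (Nat.dvd_of_mod_eq_zero ha.2)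
    refine ⟨(a : ℕ) / w, ?_, ?_⟩
    · rw [mem_range, key, h1]
      exact a.2
    · ext
      exact h1

/-- The arithmetic condition on `(k, w, n)` used for a graph on `n` vertices with independence
number `k - j`. -/
def Cond (k w n j : ℕ) : Prop :=
  (k - j + 1) * (k - j + 2) ≤ 2 * n ∨
    (j < (k + w - 1) / w ∧ ∃ t ≤ (k + w - 1) / w - j,
      ((j : ℤ) - 1) * (((k - j).choose t : ℤ) * (((k - j : ℕ) : ℤ) - t)) <
        (((k + w - 1) / w - j).choose t : ℤ) *
          (((n - (k - j) : ℕ) : ℤ) * (((k - j : ℕ) : ℤ) - t)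
            + t * ((n - (k - j) : ℕ) : ℤ) * (((k - j : ℕ) : ℤ) - (((k + w - 1) / w - j : ℕ) : ℤ))
            - (((k - j : ℕ) : ℤ) - (((k + w - 1) / w - j : ℕ) : ℤ))
              * (((k - j : ℕ) : ℤ) * ((k - j : ℕ) : ℤ))))

theorem main_comb (hH : H.CliqueFree 3) (k w : ℕ) (hw : 2 ≤ w) (hwk : w ≤ k)
    (hc : ∀ j, 1 ≤ j → j ≤ k → Cond k w (Fintype.card V) j) :
    (turanGraph k w).IsContained Hᶜ := by
  classical
  obtain ⟨I, hI⟩ := H.exists_isNIndepSet_indepNum
  have hmax : ∀ J : Finset V, H.IsIndepSet (J : Set V) → #J ≤ #I := by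
    intro J hJ
    rw [hI.card_eq]
    exact hJ.card_le_indepNum
  have hIi : H.IsIndepSet (I : Set V) := hI.isIndepSet
  have hnon : ∀ x ∈ I, ∀ y ∈ I, ¬ H.Adj x y := by
    intro x hx y hy hxy
    exact hIi hx hy hxy.ne hxy
  rcases Nat.lt_or_ge (#I) k with hlt | hge
  swap
  · obtain ⟨J, hJ, hJc⟩ := exists_subset_card_eq hge
    have e : Fin k ≃ J := Fintype.equivOfCardEq (by simp [hJc])
    refine ⟨⟨⟨fun a => (e a : V), ?_⟩, ?_⟩⟩
    · intro a b hab
      rw [compl_adj]
      refine ⟨?_, hnon _ (hJ (e a).2) _ (hJ (e b).2)⟩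
      intro h
      exact hab.ne (e.injective (Subtype.ext h))
    · intro a b h
      exact e.injective (Subtype.ext h)
  -- now `#I = k - j`
  obtain ⟨j, hj⟩ : ∃ j, k = #I + j := ⟨k - #I, by omega⟩
  have hj1 : 1 ≤ j := by omega
  have hN : k - j = #I := by omega
  set p := (k + w - 1) / w with hp
  have hpk : p < k := by
    rw [hp, Nat.div_lt_iff_lt_mul (by omega)]
    have : 2 * k ≤ k * w := by nlinarith
    omega
  rcases hc j hj1 (by omega) with h | ⟨hjp, t, ht, h⟩
  · exfalso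
    rw [hN] at h
    obtain ⟨J, -, hJc, hJ⟩ := exists_indep H hH (#I + 1) univ (by rw [card_univ]; linarith)
    have := hmax J hJ
    omega
  rw [← hp] at ht h
  rw [hN] at h
  have hs : p - j < #I := by omega
  set U : Finset V := univ \ I with hU
  have hUc : #U = Fintype.card V - #I := by
    rw [hU, card_sdiff_of_subset (subset_univ _), card_univ]
  obtain ⟨S, hSI, hSc, hS⟩ := exists_S I U (fun u => {x ∈ I | H.Adj u x})
    (fun u _ => filter_subset _ _) (p - j) t hs ht
  -- the total number of edges between `U` and `I`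
  have hdeg : ∀ x, #{u ∈ U | H.Adj u x} ≤ #I := by
    intro x
    apply hmax
    intro a ha b hb hab hadj
    have ha' := (mem_filter.1 (mem_coe.1 ha)).2
    have hb' := (mem_filter.1 (mem_coe.1 hb)).2
    exact isIndepSet_neighborSet_of_triangleFree H hH x ha'.symm hb'.symm hab hadj
  have htot : ∑ u ∈ U, ((#{x ∈ I | H.Adj u x} : ℕ) : ℤ) ≤ (#I : ℤ) * (#I : ℤ) := by
    have h1 : ∑ u ∈ U, #{x ∈ I | H.Adj u x} = ∑ x ∈ I, #{u ∈ U | H.Adj u x} := by
      simp_rw [card_filter]
      exact sum_comm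
    have h2 : ∑ x ∈ I, #{u ∈ U | H.Adj u x} ≤ #I * #I := by
      have := sum_le_card_nsmul I (fun x => #{u ∈ U | H.Adj u x}) (#I) (fun x _ => hdeg x)
      simpa using this
    have h3 : ∑ u ∈ U, #{x ∈ I | H.Adj u x} ≤ #I * #I := h1 ▸ h2
    exact_mod_cast h3
  have hcnt : j ≤ #{u ∈ U | {x ∈ I | H.Adj u x} ⊆ S} := by
    by_contra hlt'
    push Not at hlt'
    set c : ℤ := ((#I).choose t : ℤ) * ((#I : ℤ) - t) with hcdef
    have hc0 : 0 ≤ c := by
      have h5 : (t : ℤ) ≤ #I := by exact_mod_cast (by omega : t ≤ #I)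
      have h6 : (0 : ℤ) ≤ (#I : ℤ) - t := by linarith
      positivity
    have h7 : ((#{u ∈ U | {x ∈ I | H.Adj u x} ⊆ S} : ℕ) : ℤ) ≤ (j : ℤ) - 1 := by
      have : #{u ∈ U | {x ∈ I | H.Adj u x} ⊆ S} + 1 ≤ j := hlt'
      have : ((#{u ∈ U | {x ∈ I | H.Adj u x} ⊆ S} : ℕ) : ℤ) + 1 ≤ j := by exact_mod_cast this
      linarith
    have h8 := mul_le_mul_of_nonneg_left h7 hc0
    rw [← hUc] at h
    have h9 : ((p - j : ℕ) : ℤ) ≤ #I := by exact_mod_cast hs.le
    have h10 : ((#I : ℤ) - ((p - j : ℕ) : ℤ)) * ∑ u ∈ U, ((#{x ∈ I | H.Adj u x} : ℕ) : ℤ)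
        ≤ ((#I : ℤ) - ((p - j : ℕ) : ℤ)) * ((#I : ℤ) * (#I : ℤ)) :=
      mul_le_mul_of_nonneg_left htot (by linarith)
    have h11 : (0 : ℤ) ≤ ((p - j).choose t : ℤ) := by positivity
    have h12 := mul_le_mul_of_nonneg_left h10 h11
    have h13 : ((j : ℤ) - 1) * c = c * ((j : ℤ) - 1) := by ring
    rw [h13] at h
    nlinarith
  obtain ⟨W, hW, hWc⟩ := exists_subset_card_eq hcnt
  have hWI : Disjoint W I := by
    rw [Finset.disjoint_left]
    intro x hx hxI
    have := (mem_filter.1 (hW hx)).1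
    rw [hU, mem_sdiff] at this
    exact this.2 hxI
  have hWS : Disjoint S W := (hWI.mono_right hSI).symm
  have hP : #(S ∪ W) = p := by
    rw [card_union_of_disjoint hWS, hSc, hWc]
    omega
  have hR : #(I \ S) = k - p := by
    rw [card_sdiff_of_subset hSI, hSc]
    omega
  have hzero := card_mod_zero k w (by omega)
  rw [← hp] at hzero
  have c0 : Fintype.card {a : Fin k // (a : ℕ) % w = 0} = Fintype.card (S ∪ W : Finset V) := by
    rw [Fintype.card_subtype, hzero, Fintype.card_coe, hP]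
  have c1 : Fintype.card {a : Fin k // ¬ (a : ℕ) % w = 0} = Fintype.card (I \ S : Finset V) := by
    rw [Fintype.card_subtype_compl, Fintype.card_subtype, hzero, Fintype.card_coe, hR,
      Fintype.card_fin]
  have e0 := Fintype.equivOfCardEq c0
  have e1 := Fintype.equivOfCardEq c1
  have hdis : ∀ x ∈ S ∪ W, x ∉ I \ S := by
    intro x hx hxR
    rw [mem_sdiff] at hxR
    rcases mem_union.1 hx with h | h
    · exact hxR.2 h
    · exact Finset.disjoint_left.1 hWI h hxR.1
  have hcross : ∀ x ∈ S ∪ W, ∀ y ∈ I \ S, ¬ H.Adj x y := by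
    intro x hx y hy hxy
    rw [mem_sdiff] at hy
    rcases mem_union.1 hx with h | h
    · exact hnon x (hSI h) y hy.1 hxy
    · have := (mem_filter.1 (hW h)).2
      exact hy.2 (this (mem_filter.2 ⟨hy.1, hxy⟩))
  have hinR : ∀ x ∈ I \ S, ∀ y ∈ I \ S, ¬ H.Adj x y := by
    intro x hx y hy
    exact hnon x (mem_sdiff.1 hx).1 y (mem_sdiff.1 hy).1
  let f : Fin k → V := fun a =>
    if h : (a : ℕ) % w = 0 then (e0 ⟨a, h⟩ : V) else (e1 ⟨a, h⟩ : V)
  have f0 : ∀ a : Fin k, ∀ h : (a : ℕ) % w = 0, f a = (e0 ⟨a, h⟩ : V) := by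
    intro a h
    simp only [f, dif_pos h]
  have f1 : ∀ a : Fin k, ∀ h : ¬ (a : ℕ) % w = 0, f a = (e1 ⟨a, h⟩ : V) := by
    intro a h
    simp only [f, dif_neg h]
  have hinj : Function.Injective f := by
    intro a b hab
    by_cases ha : (a : ℕ) % w = 0 <;> by_cases hb : (b : ℕ) % w = 0
    · rw [f0 a ha, f0 b hb] at hab
      have := e0.injective (Subtype.ext hab)
      exact congrArg Subtype.val this
    · exfalso
      rw [f0 a ha, f1 b hb] at hab
      exact hdis _ (e0 ⟨a, ha⟩).2 (hab ▸ (e1 ⟨b, hb⟩).2)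
    · exfalso
      rw [f1 a ha, f0 b hb] at hab
      exact hdis _ (e0 ⟨b, hb⟩).2 (hab ▸ (e1 ⟨a, ha⟩).2)
    · rw [f1 a ha, f1 b hb] at hab
      have := e1.injective (Subtype.ext hab)
      exact congrArg Subtype.val this
  refine ⟨⟨⟨f, ?_⟩, hinj⟩⟩
  intro a b hab
  rw [turanGraph_adj] at hab
  rw [compl_adj]
  refine ⟨fun h => ?_, ?_⟩
  · rw [hinj h] at hab
    exact hab rfl
  · by_cases ha : (a : ℕ) % w = 0 <;> by_cases hb : (b : ℕ) % w = 0
    · exact absurd (ha.trans hb.symm) hab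
    · rw [f0 a ha, f1 b hb]
      exact hcross _ (e0 ⟨a, ha⟩).2 _ (e1 ⟨b, hb⟩).2
    · rw [f1 a ha, f0 b hb]
      intro h
      exact hcross _ (e0 ⟨b, hb⟩).2 _ (e1 ⟨a, ha⟩).2 h.symm
    · rw [f1 a ha, f1 b hb]
      exact hinR _ (e1 ⟨a, ha⟩).2 _ (e1 ⟨b, hb⟩).2

end Pool.Agent.R65.SID
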